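import Pool.Agent.Hhelper46.Forest.Final
import Pool.Agent.Hhelper46.Forest.FourierExplicit

/-!
# Every sufficiently large forest has a unimodal independence sequence

The definitions `indepSeq` and `UnimodalSeq` are those of the frozen statement
(`Pool.Prelude.Def_F_f5f3026a`).
-/

namespace Pool.Agent.Retired.MP_346bfe_co.LargeForests

open N36365310

/-- For every forest `G` with `n ≥ 10 ^ 900` vertices the independence sequence `i_0, i_1, ...` is unimodal;
moreover it is log-concave in the bulk: `i_{k-1} i_{k+1} ≤ i_k ^ 2` whenever `n / 4 ≤ k ≤ (2 / 3) |S|` for some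
independent set `S`. -/
theorem result (V : Type) [Fintype V] (G : SimpleGraph V) (hG : G.IsAcyclic) (hV : 10 ^ 900 ≤ Fintype.card V) :
    UnimodalSeq (indepSeq G) ∧
    ∀ (S : Finset V) (k : ℕ), G.IsIndepSet (S : Set V) → 1 ≤ k → Fintype.card V ≤ 4 * k → 3 * k ≤ 2 * S.card →
      indepSeq G (k - 1) * indepSeq G (k + 1) ≤ indepSeq G k ^ 2 :=
  Pool.Agent.Hhelper46.Forest.assembly Pool.Agent.Hhelper46.Forest.fourier_explicit V G hG hV

end Pool.Agent.Retired.MP_346bfe_co.LargeForests
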